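import Pool.Agent.H47.ST.Targets

namespace Pool.Agent.H62.STK

open Finset Pool.Agent.H47.ST

theorem tw_app (p : ℕ → Bool) (s st : List ℕ) (h : ∀ x ∈ st, p x = false) :
    (s ++ st).takeWhile p = s.takeWhile p := by
  induction s with
  | nil =>
    cases st with
    | nil => rfl
    | cons a st => simp [h a List.mem_cons_self]
  | cons a s ih =>
    by_cases ha : p a = true
    · simp [ha, ih]
    · simp [ha]

theorem dw_app (p : ℕ → Bool) (s st : List ℕ) (h : ∀ x ∈ st, p x = false) :
    (s ++ st).dropWhile p = s.dropWhile p ++ st := by
  induction s with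
  | nil =>
    cases st with
    | nil => rfl
    | cons a st => simp [h a List.mem_cons_self]
  | cons a s ih =>
    by_cases ha : p a = true
    · simp [ha, ih]
    · simp [ha]

theorem run_low (c : ℕ) (v st : List ℕ) (hst : ∀ x ∈ st, c < x) : ∀ (B s : List ℕ),
    (∀ x ∈ B, x < c) → (∀ x ∈ s, x < c) →
    run (B ++ c :: v) (s ++ st) = run B s ++ run v (c :: st) := by
  intro B
  induction B with
  | nil =>
    intro s _ hs
    have h1 : ∀ x ∈ st, decide (x < c) = false := by
      intro x hx
      have := hst x hx
      simp
      omega
    have h2 : s.takeWhile (fun x => decide (x < c)) = s := by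
      rw [List.takeWhile_eq_self_iff]
      intro x hx
      simpa using hs x hx
    have h3 : s.dropWhile (fun x => decide (x < c)) = [] := by
      rw [List.dropWhile_eq_nil_iff]
      intro x hx
      simpa using hs x hx
    simp only [List.nil_append, run]
    rw [tw_app _ _ _ h1, dw_app _ _ _ h1, h2, h3]
    rfl
  | cons a B ih =>
    intro s hB hs
    have hac : a < c := hB a List.mem_cons_self
    have h1 : ∀ x ∈ st, decide (x < a) = false := by
      intro x hx
      have := hst x hx
      simp
      omega
    simp only [List.cons_append, run]
    rw [tw_app _ _ _ h1, dw_app _ _ _ h1, List.append_assoc, ← List.cons_append,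
      ih (a :: s.dropWhile (fun x => decide (x < a)))
        (fun x hx => hB x (List.mem_cons_of_mem a hx)) ?_]
    intro x hx
    rcases List.mem_cons.mp hx with rfl | hx
    · exact hac
    · exact hs x ((List.dropWhile_sublist _).subset hx)

theorem run_blocks (D : List ℕ) : ∀ (bs : List (List ℕ × ℕ)) (st : List ℕ),
    (∀ b ∈ bs, ∀ x ∈ b.1, x < b.2) → bs.Pairwise (fun b b' => b'.2 < b.2) →
    (∀ b ∈ bs, ∀ x ∈ st, b.2 < x) →
    run ((bs.map fun b => b.1 ++ [b.2]).flatten ++ D) st =
      (bs.map fun b => run b.1 []).flatten ++ run D ((bs.map Prod.snd).reverse ++ st) := by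
  intro bs
  induction bs with
  | nil => intro st _ _ _; simp
  | cons b bs ih =>
    intro st h1 h2 h3
    rw [List.pairwise_cons] at h2
    have e : ((b :: bs).map fun b => b.1 ++ [b.2]).flatten ++ D =
        b.1 ++ b.2 :: ((bs.map fun b => b.1 ++ [b.2]).flatten ++ D) := by
      simp
    have h4 := run_low b.2 ((bs.map fun b => b.1 ++ [b.2]).flatten ++ D) st
      (h3 b List.mem_cons_self) b.1 [] (h1 b List.mem_cons_self) (by simp)
    rw [List.nil_append] at h4
    rw [e, h4, ih (b.2 :: st) (fun b' hb' => h1 b' (List.mem_cons_of_mem b hb')) h2.2 ?_]
    · simp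
    · intro b' hb' x hx
      rcases List.mem_cons.mp hx with rfl | hx
      · exact h2.1 b' hb'
      · exact h3 b' (List.mem_cons_of_mem b hb') x hx

theorem run_sorted : ∀ (D st : List ℕ), D.Pairwise (· < ·) → st.Pairwise (· < ·) →
    (D ++ st).Nodup → (run D st).Pairwise (· < ·) ∧ (run D st).Perm (D ++ st) := by
  intro D
  induction D with
  | nil => intro st _ h _; exact ⟨h, List.Perm.refl _⟩
  | cons d D ih =>
    intro st hD hst hn
    rw [List.pairwise_cons] at hD
    rw [List.cons_append, List.nodup_cons] at hn
    have hsplit : st.takeWhile (fun x => decide (x < d)) ++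
        st.dropWhile (fun x => decide (x < d)) = st := List.takeWhile_append_dropWhile
    have hrest : (st.dropWhile (fun x => decide (x < d))).Pairwise (· < ·) :=
      hst.sublist (List.dropWhile_sublist _)
    have hdst : d ∉ st := fun h => hn.1 (List.mem_append_right D h)
    have hgt : ∀ x ∈ st.dropWhile (fun x => decide (x < d)), d < x := by
      intro x hx
      cases hr : st.dropWhile (fun x => decide (x < d)) with
      | nil => rw [hr] at hx; simp at hx
      | cons y ys =>
        have hy : ¬ (y < d) := by
          have := List.head?_dropWhile_not (fun x => decide (x < d)) st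
          rw [hr] at this
          simpa using this
        have hyd : y ≠ d := by
          rintro rfl
          apply hdst
          apply (List.dropWhile_sublist (fun x => decide (x < y))).subset
          rw [hr]
          exact List.mem_cons_self
        rw [hr] at hx hrest
        rw [List.pairwise_cons] at hrest
        rcases List.mem_cons.mp hx with rfl | hx
        · omega
        · have := hrest.1 x hx
          omega
    have hlt : ∀ x ∈ st.takeWhile (fun x => decide (x < d)), x < d := by
      intro x hx
      have := List.mem_takeWhile_imp hx
      simpa using this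
    have h5 : (d :: st.dropWhile (fun x => decide (x < d))).Pairwise (· < ·) :=
      List.pairwise_cons.mpr ⟨hgt, hrest⟩
    have h6 : (D ++ d :: st.dropWhile (fun x => decide (x < d))).Nodup := by
      have h7 : (d :: (D ++ st)).Nodup := List.nodup_cons.mpr hn
      have h8 : (d :: (D ++ st.dropWhile (fun x => decide (x < d)))).Nodup :=
        h7.sublist (((List.dropWhile_sublist _).append_left D).cons_cons d)
      exact (List.perm_middle.nodup_iff).mpr h8
    obtain ⟨h9, h10⟩ := ih _ hD.2 h5 h6
    simp only [run]
    constructor
    · rw [List.pairwise_append]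
      refine ⟨hst.sublist (List.takeWhile_sublist _), h9, ?_⟩
      intro x hx y hy
      have h11 := hlt x hx
      have h12 := h10.subset hy
      rcases List.mem_append.mp h12 with h13 | h13
      · have := hD.1 y h13
        omega
      · rcases List.mem_cons.mp h13 with rfl | h13
        · exact h11
        · have := hgt y h13
          omega
    · have h11 : (st.takeWhile (fun x => decide (x < d)) ++
          run D (d :: st.dropWhile (fun x => decide (x < d)))).Perm
          (st.takeWhile (fun x => decide (x < d)) ++
            (d :: (D ++ st.dropWhile (fun x => decide (x < d))))) :=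
        (h10.trans List.perm_middle).append_left _
      refine h11.trans ?_
      refine List.perm_middle.trans ?_
      rw [List.cons_append]
      refine List.Perm.cons d ?_
      rw [← List.append_assoc]
      refine (List.perm_append_comm.append_right _).trans ?_
      rw [List.append_assoc, hsplit]

theorem pf_SST (h1 : T_RUN) : T_SST := by
  intro bs D hb hp hD hn
  have hsorted : (bs.map Prod.snd).reverse.Pairwise (· < ·) := by
    rw [List.pairwise_reverse, List.pairwise_map]
    exact hp
  have hcs : (bs.map Prod.snd).Sublist (bs.map fun b => b.1 ++ [b.2]).flatten := by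
    clear hp hn hb hsorted
    induction bs with
    | nil => simp
    | cons b bs ih =>
      simp only [List.map_cons, List.flatten_cons]
      rw [← List.singleton_append]
      exact (List.sublist_append_right b.1 [b.2]).append ih
  have hnd : (D ++ (bs.map Prod.snd).reverse).Nodup := by
    have h2 : ((bs.map Prod.snd) ++ D).Nodup := hn.sublist (hcs.append (List.Sublist.refl D))
    have h3 : (D ++ (bs.map Prod.snd).reverse).Perm ((bs.map Prod.snd) ++ D) :=
      ((List.reverse_perm _).append_left D).trans List.perm_append_comm
    exact h3.nodup_iff.mpr h2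
  obtain ⟨h4, h5⟩ := run_sorted D _ hD hsorted hnd
  refine ⟨run D (bs.map Prod.snd).reverse, h4,
    h5.trans ((List.reverse_perm _).append_left D), ?_⟩
  rw [h1 _ hn, run_blocks D bs [] hb hp (by simp), List.append_nil]
  congr 2
  apply List.map_congr_left
  intro b hbm
  refine (h1 b.1 ?_).symm
  have h6 : (b.1 ++ [b.2]).Sublist (bs.map fun b => b.1 ++ [b.2]).flatten :=
    List.sublist_flatten_of_mem (List.mem_map_of_mem (f := fun b : List ℕ × ℕ => b.1 ++ [b.2]) hbm)
  exact hn.sublist (((List.sublist_append_left b.1 [b.2]).trans h6).trans
    (List.sublist_append_left _ _))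

end Pool.Agent.H62.STK
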